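import Mathlib
import Pool.Agent.H53.VertC

open MeasureTheory Filter Set

namespace Pool.Agent.Results.MP_2688e8_nt.Full

theorem result (ψ : ℕ → ℝ) (hpos : ∀ q : ℕ, 1 ≤ q → 0 < ψ q)
    (hmono : MonotoneOn ψ (Set.Ici 1) ∨ AntitoneOn ψ (Set.Ici 1))
    (α : ℝ) (hdiv : ¬ Summable fun q : ℕ => ψ (q + 1) ^ 2) :
    MeasureTheory.volume {β : ℝ | β ∈ Set.Icc (0:ℝ) 1 ∧
      Set.Infinite {q : ℕ | 1 ≤ q ∧
        max |(q:ℝ) * α - round ((q:ℝ) * α)| |(q:ℝ) * β - round ((q:ℝ) * β)| < ψ q}} = 1 := by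
  obtain ⟨φ, h1, h2, h3, h4, h5⟩ : ∃ φ : ℕ → ℝ, Antitone φ ∧ (∀ q, 0 < φ q) ∧ (∀ q, φ q ≤ 1 / 200) ∧
      (¬ Summable fun q => φ (q + 1) ^ 2) ∧ ∀ q, 1 ≤ q → φ q ≤ ψ q := by
    rcases hmono with hm | hm
    · have h0 : 0 < min (1 / 200) (ψ 1) := lt_min (by norm_num) (hpos 1 le_rfl)
      refine ⟨fun _ => min (1 / 200) (ψ 1), antitone_const, fun _ => h0, fun _ => min_le_left _ _, ?_,
        fun q hq => (min_le_right _ _).trans (hm (mem_Ici.2 le_rfl) (mem_Ici.2 hq) hq)⟩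
      intro hs
      have := tendsto_nhds_unique hs.tendsto_atTop_zero tendsto_const_nhds
      exact (pow_pos h0 2).ne this
    · refine ⟨fun q => min (1 / 200) (ψ (max q 1)), fun a b hab => min_le_min_left _
        (hm (mem_Ici.2 (le_max_right _ _)) (mem_Ici.2 (le_max_right _ _)) (max_le_max_right _ hab)),
        fun q => lt_min (by norm_num) (hpos _ (le_max_right _ _)), fun _ => min_le_left _ _, ?_,
        fun q hq => by simp only [max_eq_left hq]; exact min_le_right _ _⟩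
      intro hs
      apply hdiv
      have ht := hs.tendsto_atTop_zero.eventually_lt_const (show (0:ℝ) < (1 / 200) ^ 2 by norm_num)
      refine hs.congr_atTop (ht.mono fun q hq => ?_)
      simp only [max_eq_left (Nat.le_add_left 1 q)] at hq ⊢
      rcases le_total (1 / 200) (ψ (q + 1)) with h | h
      · rw [min_eq_left h] at hq
        exact absurd hq (lt_irrefl _)
      · rw [min_eq_right h]
  refine le_antisymm ((measure_mono fun β h => h.1).trans (by simp)) ?_
  rw [← Pool.Agent.H53.Vert.core α φ h1 h2 h3 h4]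
  refine measure_mono fun β h => ⟨Ioc_subset_Icc_self h.2, ?_⟩
  rw [← Nat.frequently_atTop_iff_infinite]
  exact Filter.Frequently.mono h.1 fun q hq =>
    ⟨hq.1.1, (max_lt hq.1.2 hq.2).trans_le (h5 q hq.1.1)⟩

end Pool.Agent.Results.MP_2688e8_nt.Full
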